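import Pool.Agent.H.MP_2cf482_co.A

namespace Pool.Agent.Results.MP_2cf482_co.Four
open Pool.Agent.H.MP_2cf482_co

theorem result :
    (∀ (V : Type) [Fintype V] [DecidableEq V] (G : SimpleGraph V), G.Connected →
      Conservative 4 G → ∀ u v, G.dist u v ≤ 6) ∧
    (∃ G : SimpleGraph (Fin 8), G.Connected ∧ Conservative 4 G ∧ ∃ u v, G.dist u v = 6) :=
  ⟨fun V _ _ G hc => (both.1 V G hc).1, both.2⟩

end Pool.Agent.Results.MP_2cf482_co.Four
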