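import Pool.Agent.H.MP_2cf482_co.A

namespace Pool.Agent.Results.MP_2cf482_co.Large
open Pool.Agent.H.MP_2cf482_co

theorem result (V : Type) [Fintype V] [DecidableEq V] (G : SimpleGraph V) (hc : G.Connected)
    (k : ℕ) (hk : 5 ≤ k) (h : Conservative k G) (u v : V) : G.dist u v ≤ 3 * k - 7 :=
  (both.1 V G hc).2 k hk h u v

end Pool.Agent.Results.MP_2cf482_co.Large
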